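import Pool.Agent.Helper14_DK.Stmts

/-!
# APR: the a priori estimate for test forms
-/

set_option autoImplicit false

namespace Pool.Agent.DK.H44

open MeasureTheory Complex Set Metric Filter
open scoped ContDiff Topology

variable {n : ℕ} {D : Set (E n)}

theorem contOn_dz (hD : IsOpen D) {F : E n → ℝ} (hF : ContDiffOn ℝ ∞ F D) (j : Fin n) :
    ContinuousOn (dz j (cx F)) D := fun z hz =>
  ((contDiffAt_dz (m := ⊤) (by
    simpa using (contDiffOn_cx hF).contDiffAt (hD.mem_nhds hz))).continuousAt).continuousWithinAt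

theorem contOn_Lv (hD : IsOpen D) {F : E n → ℝ} (hF : ContDiffOn ℝ ∞ F D) {w : E n → E n}
    (hw : Continuous w) : ContinuousOn (fun z => Lv F z (w z)) D := by
  have h1 : ContDiffOn ℝ ∞ (fderiv ℝ F) D := hF.fderiv_of_isOpen hD (by simp)
  have h2 : ContinuousOn (fderiv ℝ (fderiv ℝ F)) D :=
    h1.continuousOn_fderiv_of_isOpen hD (by simp)
  have h3 : ∀ v : E n → E n, Continuous v →
      ContinuousOn (fun z => fderiv ℝ (fderiv ℝ F) z (v z) (v z)) D := fun v hv =>
    (h2.clm_apply hv.continuousOn).clm_apply hv.continuousOn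
  have e : (fun z => Lv F z (w z)) = fun z => (fderiv ℝ (fderiv ℝ F) z (w z) (w z) +
      fderiv ℝ (fderiv ℝ F) z (I • w z) (I • w z)) / 4 := by
    funext z
    simp [Lv, iteratedFDeriv_two_apply]
  rw [e]
  exact ((h3 w hw).add (h3 (fun z => I • w z) (hw.const_smul I))).div_const 4

theorem integrable_of_contOn {K : Set (E n)} (hK : IsCompact K) (hKD : K ⊆ D) {h : E n → ℝ}
    (hc : ContinuousOn h D) (h0 : ∀ z ∉ K, h z = 0) : Integrable h volume :=
  IntegrableOn.integrable_of_forall_notMem_eq_zero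
    ((hc.mono hKD).integrableOn_compact hK) h0

theorem Lv_zero (F : E n → ℝ) (z : E n) : Lv F z 0 = 0 := by
  simp [Lv, iteratedFDeriv_two_apply]

/-- APR -/
theorem apr (hI : IdentStmt) : AprStmt := by
  intro n D Φ ψ t a hD hΦ hψ hcurv ha
  have hI' := hI n D Φ a hD hΦ ha
  set X : E n → ℂ := fun z =>
    ∑ j, (dz j (a j) z - dz j (cx (fun y => Φ y - ψ y)) z * a j z) with hX
  set Y : E n → ℂ := fun z => ∑ j, dz j (cx ψ) z * a j z with hY
  set W : E n → ℂ := fun z => ∑ j, (dz j (a j) z - dz j (cx Φ) z * a j z) with hW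
  set K : Set (E n) := ⋃ j, tsupport (a j) with hKdef
  have hK : IsCompact K := isCompact_iUnion fun j => (ha j).cpt
  have hKD : K ⊆ D := iUnion_subset fun j => (ha j).sub
  have ha0 : ∀ z ∉ K, ∀ j, a j z = 0 := fun z hz j =>
    image_eq_zero_of_notMem_tsupport fun h => hz (mem_iUnion.2 ⟨j, h⟩)
  have hda0 : ∀ z ∉ K, ∀ j, dz j (a j) z = 0 := by
    intro z hz j
    have h1 : z ∉ tsupport (a j) := fun h => hz (mem_iUnion.2 ⟨j, h⟩)
    have h' : z ∉ tsupport (fderiv ℝ (a j)) := fun h' => h1 (tsupport_fderiv_subset ℝ h')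
    simp [dz, image_eq_zero_of_notMem_tsupport h']
  have hXY : ∀ z, W z = X z - Y z := by
    intro z
    by_cases hz : z ∈ K
    · have hzD := hKD hz
      have h1 : DifferentiableAt ℝ (cx Φ) z :=
        ((contDiffOn_cx hΦ).contDiffAt (hD.mem_nhds hzD)).differentiableAt (by simp)
      have h2 : DifferentiableAt ℝ (cx ψ) z :=
        ((contDiffOn_cx hψ).contDiffAt (hD.mem_nhds hzD)).differentiableAt (by simp)
      have h3 : ∀ j, dz j (cx (fun y => Φ y - ψ y)) z = dz j (cx Φ) z - dz j (cx ψ) z := by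
        intro j
        have e : cx (fun y => Φ y - ψ y) = fun y => cx Φ y - cx ψ y := by
          funext y; simp [cx]
        rw [e, dz_sub h1 h2]
      rw [hX, hY, hW]
      simp only [h3]
      rw [← Finset.sum_sub_distrib]
      refine Finset.sum_congr rfl fun j _ => ?_
      ring
    · rw [hX, hY, hW]
      simp [ha0 z hz, hda0 z hz]
  -- continuity
  have hΨ : ContDiffOn ℝ ∞ (fun y => Φ y - ψ y) D := hΦ.sub hψ
  have hac : ∀ j, Continuous (a j) := fun j => (ha j).continuous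
  have hdac : ∀ j, Continuous (dz j (a j)) := fun j => ((ha j).dz j).continuous
  have cX : ContinuousOn X D := by
    refine continuousOn_finsetSum _ fun j _ => ?_
    exact (hdac j).continuousOn.sub ((contOn_dz hD hΨ j).mul (hac j).continuousOn)
  have cY : ContinuousOn Y D := by
    refine continuousOn_finsetSum _ fun j _ => ?_
    exact (contOn_dz hD hψ j).mul (hac j).continuousOn
  have cW : ContinuousOn W D := by
    refine continuousOn_finsetSum _ fun j _ => ?_
    exact (hdac j).continuousOn.sub ((contOn_dz hD hΦ j).mul (hac j).continuousOn)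
  have cE : ContinuousOn (fun z => Real.exp (-Φ z)) D :=
    Real.continuous_exp.comp_continuousOn hΦ.continuousOn.neg
  have cE' : ContinuousOn (fun z => Real.exp (-(Φ z - ψ z))) D :=
    Real.continuous_exp.comp_continuousOn hΨ.continuousOn.neg
  have X0 : ∀ z ∉ K, X z = 0 := fun z hz => by rw [hX]; simp [ha0 z hz, hda0 z hz]
  have Y0 : ∀ z ∉ K, Y z = 0 := fun z hz => by rw [hY]; simp [ha0 z hz]
  have W0 : ∀ z ∉ K, W z = 0 := fun z hz => by rw [hW]; simp [ha0 z hz, hda0 z hz]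
  have iX : Integrable (fun z => ‖X z‖ ^ 2 * Real.exp (-Φ z)) :=
    integrable_of_contOn hK hKD ((cX.norm.pow 2).mul cE) fun z hz => by simp [X0 z hz]
  have iY : Integrable (fun z => ‖Y z‖ ^ 2 * Real.exp (-Φ z)) :=
    integrable_of_contOn hK hKD ((cY.norm.pow 2).mul cE) fun z hz => by simp [Y0 z hz]
  have iW : Integrable (fun z => ‖W z‖ ^ 2 * Real.exp (-Φ z)) :=
    integrable_of_contOn hK hKD ((cW.norm.pow 2).mul cE) fun z hz => by simp [W0 z hz]
  have iL : Integrable (fun z => Lv Φ z (fun j => a j z) * Real.exp (-Φ z)) := by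
    refine integrable_of_contOn hK hKD
      ((contOn_Lv hD hΦ (w := fun z j => a j z) (continuous_pi hac)).mul cE) fun z hz => ?_
    have : (fun j => a j z) = 0 := funext fun j => ha0 z hz j
    rw [this, Lv_zero, zero_mul]
  have iA : Integrable (fun z => (∑ j, ‖a j z‖ ^ 2) * Real.exp (-(Φ z - ψ z))) := by
    refine integrable_of_contOn hK hKD (ContinuousOn.mul
      (continuousOn_finsetSum _ fun j _ => ((hac j).continuousOn.norm.pow 2)) cE')
      fun z hz => ?_
    simp [ha0 z hz]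
  -- pointwise inequalities
  have p1 : ∀ z, t * ((∑ j, ‖a j z‖ ^ 2) * Real.exp (-(Φ z - ψ z))) +
      2 * (‖Y z‖ ^ 2 * Real.exp (-Φ z)) ≤
      Lv Φ z (fun j => a j z) * Real.exp (-Φ z) := by
    intro z
    by_cases hz : z ∈ K
    · have hzD := hKD hz
      have h1 := hcurv z hzD (fun j => a j z)
      have h2 : ‖Y z‖ ^ 2 ≤ (∑ j, ‖dz j (cx ψ) z‖ ^ 2) * ∑ j, ‖a j z‖ ^ 2 := by
        have h3 : ‖Y z‖ ≤ ∑ j, ‖dz j (cx ψ) z‖ * ‖a j z‖ := by
          rw [hY]
          refine (norm_sum_le _ _).trans (le_of_eq ?_)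
          refine Finset.sum_congr rfl fun j _ => norm_mul _ _
        calc ‖Y z‖ ^ 2 ≤ (∑ j, ‖dz j (cx ψ) z‖ * ‖a j z‖) ^ 2 := by
              exact pow_le_pow_left₀ (norm_nonneg _) h3 2
          _ ≤ _ := Finset.sum_mul_sq_le_sq_mul_sq _ _ _
      have h4 : nsq (fun j => a j z) = ∑ j, ‖a j z‖ ^ 2 := rfl
      rw [h4] at h1
      have h5 : Real.exp (-(Φ z - ψ z)) = Real.exp (ψ z) * Real.exp (-Φ z) := by
        rw [← Real.exp_add]; congr 1; ring
      have h6 := Real.exp_pos (-Φ z)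
      rw [h5]
      have h7 : (t * Real.exp (ψ z) * (∑ j, ‖a j z‖ ^ 2) + 2 * ‖Y z‖ ^ 2) ≤
          Lv Φ z (fun j => a j z) := by nlinarith
      have h8 := mul_le_mul_of_nonneg_right h7 h6.le
      nlinarith
    · have h0 : (fun j => a j z) = 0 := funext fun j => ha0 z hz j
      rw [h0, Lv_zero, Y0 z hz]
      simp [ha0 z hz]
  have p2 : ∀ z, ‖W z‖ ^ 2 * Real.exp (-Φ z) ≤
      2 * (‖X z‖ ^ 2 * Real.exp (-Φ z)) + 2 * (‖Y z‖ ^ 2 * Real.exp (-Φ z)) := by
    intro z
    rw [hXY z]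
    have h1 : ‖X z - Y z‖ ≤ ‖X z‖ + ‖Y z‖ := norm_sub_le _ _
    have h2 : ‖X z - Y z‖ ^ 2 ≤ 2 * ‖X z‖ ^ 2 + 2 * ‖Y z‖ ^ 2 := by
      have h3 : ‖X z - Y z‖ ^ 2 ≤ (‖X z‖ + ‖Y z‖) ^ 2 := pow_le_pow_left₀ (norm_nonneg _) h1 2
      nlinarith [sq_nonneg (‖X z‖ - ‖Y z‖)]
    have h6 := Real.exp_pos (-Φ z)
    have h7 := mul_le_mul_of_nonneg_right h2 h6.le
    nlinarith
  have q1 := integral_mono ((iA.const_mul t).add (iY.const_mul 2)) iL (fun z => by
    simpa using p1 z)
  have q2 := integral_mono iW ((iX.const_mul 2).add (iY.const_mul 2)) (fun z => by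
    simpa using p2 z)
  simp only [Pi.add_apply] at q1 q2
  rw [integral_add (iA.const_mul t) (iY.const_mul 2), integral_const_mul,
    integral_const_mul] at q1
  rw [integral_add (iX.const_mul 2) (iY.const_mul 2), integral_const_mul,
    integral_const_mul] at q2
  linarith

end Pool.Agent.DK.H44
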