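import Pool.Agent.Helper14_DK.Stmts

/-!
# CHI: convex increasing functions with prescribed growth
-/

set_option autoImplicit false

namespace Pool.Agent.DK.H44

open MeasureTheory Complex Set Metric Filter
open scoped ContDiff Topology

/-- primitive of the smooth transition function -/
noncomputable def g0 (x : ℝ) : ℝ := ∫ t in (0 : ℝ)..x, Real.smoothTransition t

theorem hasDerivAt_g0 (x : ℝ) : HasDerivAt g0 (Real.smoothTransition x) x :=
  intervalIntegral.integral_hasDerivAt_right
    (Real.smoothTransition.continuous.intervalIntegrable _ _)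
    (Real.smoothTransition.continuous.stronglyMeasurableAtFilter _ _)
    Real.smoothTransition.continuous.continuousAt

theorem deriv_g0 : deriv g0 = Real.smoothTransition := funext fun x => (hasDerivAt_g0 x).deriv

theorem contDiff_g0 : ContDiff ℝ ∞ g0 := by
  rw [contDiff_infty_iff_deriv]
  refine ⟨fun x => (hasDerivAt_g0 x).differentiableAt, ?_⟩
  rw [deriv_g0]
  exact Real.smoothTransition.contDiff

theorem g0_nonpos {x : ℝ} (hx : x ≤ 0) : g0 x = 0 := by
  unfold g0
  rw [intervalIntegral.integral_symm, neg_eq_zero]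
  rw [intervalIntegral.integral_congr (g := fun _ => (0 : ℝ))]
  · simp
  · intro t ht
    rw [uIcc_of_le hx] at ht
    exact Real.smoothTransition.zero_of_nonpos ht.2

theorem g0_mono : Monotone g0 := by
  refine monotone_of_deriv_nonneg (fun x => (hasDerivAt_g0 x).differentiableAt) fun x => ?_
  rw [deriv_g0]
  exact Real.smoothTransition.nonneg x

theorem g0_nonneg (x : ℝ) : 0 ≤ g0 x := by
  rcases le_total x 0 with h | h
  · exact (g0_nonpos h).ge
  · have := g0_mono h
    rwa [g0_nonpos le_rfl] at this

theorem one_le_g0 {x : ℝ} (hx : 2 ≤ x) : 1 ≤ g0 x := by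
  have h2 : g0 2 ≤ g0 x := g0_mono hx
  have h1 : g0 2 - g0 1 = 1 := by
    unfold g0
    rw [intervalIntegral.integral_interval_sub_left
      (Real.smoothTransition.continuous.intervalIntegrable _ _)
      (Real.smoothTransition.continuous.intervalIntegrable _ _)]
    rw [intervalIntegral.integral_congr (g := fun _ => (1 : ℝ))]
    · simp; norm_num
    · intro t ht
      rw [uIcc_of_le (by norm_num)] at ht
      exact Real.smoothTransition.one_of_one_le ht.1
  have h0 := g0_nonneg 1
  linarith

/-- CHI -/
theorem chi : ChiStmt := by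
  intro B
  set b : ℕ → ℝ := fun k => max (B k) 0 with hb
  have hb0 : ∀ k, 0 ≤ b k := fun k => le_max_right _ _
  set χ : ℝ → ℝ := fun x => ∑ k ∈ Finset.range (⌈x⌉₊ + 2), b k * g0 (x - k + 2) with hχ
  -- finite sums
  have hfin : ∀ (N : ℕ) (x : ℝ), x < N → χ x = ∑ k ∈ Finset.range (N + 2), b k * g0 (x - k + 2) := by
    intro N x hx
    have hle : ⌈x⌉₊ ≤ N := Nat.ceil_le.2 hx.le
    rw [hχ]
    refine Finset.sum_subset (Finset.range_subset_range.2 (by omega)) fun k _ hk => ?_
    rw [Finset.mem_range, not_lt] at hk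
    have h1 : x ≤ (⌈x⌉₊ : ℝ) := Nat.le_ceil x
    have h2 : ((⌈x⌉₊ + 2 : ℕ) : ℝ) ≤ (k : ℝ) := by exact_mod_cast hk
    push_cast at h2
    rw [g0_nonpos (by linarith), mul_zero]
  have hev : ∀ (N : ℕ) (x : ℝ), x < N →
      χ =ᶠ[𝓝 x] fun y => ∑ k ∈ Finset.range (N + 2), b k * g0 (y - k + 2) := by
    intro N x hx
    filter_upwards [Iio_mem_nhds hx] with y hy
    exact hfin N y hy
  have hder : ∀ (N : ℕ) (x : ℝ), x < N →
      deriv χ x = ∑ k ∈ Finset.range (N + 2), b k * Real.smoothTransition (x - k + 2) := by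
    intro N x hx
    rw [(hev N x hx).deriv_eq]
    refine HasDerivAt.deriv ?_
    refine HasDerivAt.fun_sum fun k _ => ?_
    have h1 : HasDerivAt (fun y : ℝ => y - k + 2) 1 x := by
      simpa using ((hasDerivAt_id x).sub_const (k : ℝ)).add_const (2 : ℝ)
    have h2 := (hasDerivAt_g0 (x - k + 2)).comp x h1
    rw [mul_one] at h2
    exact h2.const_mul (b k)
  have hder2 : ∀ (N : ℕ) (x : ℝ), x < N →
      deriv (deriv χ) x = ∑ k ∈ Finset.range (N + 2),
        b k * deriv Real.smoothTransition (x - k + 2) := by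
    intro N x hx
    have he : deriv χ =ᶠ[𝓝 x] fun y => ∑ k ∈ Finset.range (N + 2),
        b k * Real.smoothTransition (y - k + 2) := by
      filter_upwards [Iio_mem_nhds hx] with y hy
      exact hder N y hy
    rw [he.deriv_eq]
    refine HasDerivAt.deriv ?_
    refine HasDerivAt.fun_sum fun k _ => ?_
    have h1 : HasDerivAt (fun y : ℝ => y - k + 2) 1 x := by
      simpa using ((hasDerivAt_id x).sub_const (k : ℝ)).add_const (2 : ℝ)
    have hd : DifferentiableAt ℝ Real.smoothTransition (x - k + 2) :=
      (Real.smoothTransition.contDiff (n := 1)).differentiable (by norm_num) _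
    have h2 := hd.hasDerivAt.comp x h1
    rw [mul_one] at h2
    exact h2.const_mul (b k)
  have hex : ∀ x : ℝ, ∃ N : ℕ, x < N := fun x => exists_nat_gt x
  refine ⟨χ, ?_, ?_, ?_, ?_, ?_, ?_⟩
  · refine contDiff_iff_contDiffAt.2 fun x => ?_
    obtain ⟨N, hN⟩ := hex x
    refine ContDiffAt.congr_of_eventuallyEq ?_ (hev N x hN)
    refine ContDiffAt.sum fun k _ => contDiffAt_const.mul ?_
    exact (contDiff_g0.comp ((contDiff_id.sub contDiff_const).add contDiff_const)).contDiffAt
  · intro x hx
    rw [hfin 0 x (by simp; linarith)]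
    refine Finset.sum_eq_zero fun k _ => ?_
    have hk : (0 : ℝ) ≤ k := Nat.cast_nonneg k
    rw [g0_nonpos (by linarith), mul_zero]
  · intro x
    exact Finset.sum_nonneg fun k _ => mul_nonneg (hb0 k) (g0_nonneg _)
  · intro x
    obtain ⟨N, hN⟩ := hex x
    rw [hder N x hN]
    exact Finset.sum_nonneg fun k _ => mul_nonneg (hb0 k) (Real.smoothTransition.nonneg _)
  · intro x
    obtain ⟨N, hN⟩ := hex x
    rw [hder2 N x hN]
    exact Finset.sum_nonneg fun k _ => mul_nonneg (hb0 k)
      Real.smoothTransition.monotone.deriv_nonneg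
  · intro k x hkx
    obtain ⟨N, hN⟩ := hex x
    have hkN : k ∈ Finset.range (N + 2) := by
      have : (k : ℝ) < N := lt_of_le_of_lt hkx hN
      have : k < N := by exact_mod_cast this
      exact Finset.mem_range.2 (by omega)
    constructor
    · rw [hfin N x hN]
      have h1 : b k * g0 (x - k + 2) ≤ ∑ k ∈ Finset.range (N + 2), b k * g0 (x - k + 2) :=
        Finset.single_le_sum (f := fun k => b k * g0 (x - (k : ℕ) + 2))
          (fun k _ => mul_nonneg (hb0 k) (g0_nonneg _)) hkN
      have h2 : B k ≤ b k := le_max_left _ _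
      have h3 : b k * 1 ≤ b k * g0 (x - k + 2) :=
        mul_le_mul_of_nonneg_left (one_le_g0 (by linarith)) (hb0 k)
      linarith
    · rw [hder N x hN]
      have h1 : b k * Real.smoothTransition (x - k + 2) ≤
          ∑ k ∈ Finset.range (N + 2), b k * Real.smoothTransition (x - k + 2) :=
        Finset.single_le_sum (f := fun k => b k * Real.smoothTransition (x - (k : ℕ) + 2))
          (fun k _ => mul_nonneg (hb0 k) (Real.smoothTransition.nonneg _)) hkN
      have h2 : B k ≤ b k := le_max_left _ _
      rw [Real.smoothTransition.one_of_one_le (by linarith)] at h1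
      linarith

end Pool.Agent.DK.H44
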